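import Pool.Agent.Helper10.PC.Pair

/-!
# The conjecture `C⁺_nc` for geometric dg categories and smooth moduli spaces of planar configurations

Let `F` be a prime field, `k` an algebraic extension of `F` (for instance `ℚ` or `ℚ̄`), `S` a smooth
projective scheme over `F`, and `𝒜` a smooth proper dg category over `k` such that `U(𝒜)_ℚ` is a direct
factor of `U(perf_dg(S_k))_ℚ` in `NChow(k)_ℚ`, for instance an admissible subcategory of `perf_dg(S_k)`:
there are morphisms `ι : U(𝒜) → U(perf(S_k))` and `ρ` back with `ρ ∘ ι = 1`. The conjecture `C⁺_nc(𝒜)` says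
that the even Künneth projector `π_+` of `V = HP_±(𝒜)`, or of `V = TP_±(𝒜)_{1/p}`, is algebraic.

For a smooth projective scheme `Y` over `F` let `A(Y)` be the image of `K_0(𝒜^op ⊗ perf_dg(Y_k))_ℚ` in the
space `Hom(V, V_Y)`, where `V_Y` is the realisation of `perf_dg(Y_k)` (that is, the morphisms from
`U(𝒜)_ℚ` to `U(perf_dg(Y_k))_ℚ`, modulo homological equivalence), and `B(Y) = A(Y) + A(Y) ∘ π_+`. Both are
additive functors of the Chow motive of `Y_k`, and `A ⊆ B`; they are equal if and only if `α ∘ π_+` is
algebraic for all algebraic `α` (`EvenStable`). For a separated scheme `X` of finite type over `F` let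
`W(X)` be the weight complex of `X_k` (Gillet, Soulé, Bondarko; a complex of Chow motives over `k` with
rational coefficients, for the cohomology with compact supports; `W(X) = h(X_k)` for smooth projective
`X`), and put `A^i(X) = H^i(A(W(X)))`, `B^i(X) = H^i(B(W(X)))`. `BijAll C X` says that the maps
`A^i(X) → B^i(X)` are isomorphisms for all `i`. The facts which are used: isomorphism invariance,
`W(∅) = 0`, long exact sequences of closed-open pairs (`IsCutPair`; neither affine bundles nor products with
`𝔾_m`), and that `W(X)` consists of direct factors of motives of smooth projective schemes whose dimension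
is at most the dimension of `X` (`AllGen`, `BijDim`).

A matroid `M` of rank three on the set `Fin 4 ⊕ Fin n` is **framed** if any three of the four elements of
`Fin 4` form a base; it is **simple** if any two elements are independent. Let `modS F M` be the moduli
space over `F` of the configurations of `n + 4` different points in the projective plane in which exactly
the triples prescribed by `M` are collinear, modulo projective transformations: the four points of `Fin 4`
are the points of `e_1, e_2, e_3, e_1 + e_2 + e_3`, and the other ones have normalised coordinates.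

**Theorem.** (1) For each `S` there is a finite list `L` of simple matroids of rank three, whose moduli
spaces are integral, smooth, and of dimension at most `dim S` (it does not depend on `k`, on the realisation
or on `𝒜`), such that the following statements are equivalent: the conjecture `C⁺_nc(𝒜)` is true; the maps
are isomorphisms for all separated schemes `X` of finite type over `F`; they are isomorphisms for the
finitely many moduli spaces `X = modS F M`, `M` in `L`.

(2) For each `e` the following are equivalent: the conjecture `C⁺_nc(𝒜)` is true for all smooth proper dg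
categories `𝒜` over `k` such that `U(𝒜)_ℚ` is a direct factor of `U(perf_dg(S_k))_ℚ` for a smooth projective
scheme `S` over `F` of dimension at most `e`; the maps (for all these `𝒜`) are isomorphisms for all
separated schemes `X` of finite type over `F` of dimension at most `e`; they are isomorphisms for the
integral smooth moduli spaces `X = modS F M` of dimension at most `e`, for all simple framed matroids `M` of
rank three.

In (2) one takes for `C` the product of the comparison maps for all `𝒜`. The earlier reductions (to cubic
hypersurfaces, graph hypersurfaces) lead to singular schemes of larger dimension, and they need affine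
bundles and products with `𝔾_m`. In the background is the theorem `Pool.Agent.Helper13.RM.config_list` on
arbitrary properties of schemes that are closed under cutting.
-/

set_option autoImplicit false

open AlgebraicGeometry Pool.Agent.Y116.UV Pool.Agent.Z125.UN Pool.Agent.Q193.LT
  Pool.Agent.Helper3.GU Pool.Agent.Helper13.RM Pool.Agent.Helper10.PC

universe w u

namespace Pool.Agent.Results.MP_8f22fa_ag.PlanarConfigurations

/-- A smooth proper dg category `𝒜` over `k` whose noncommutative motive is a direct factor of that of
`S_k`, and the schemes `Y_k`, for schemes `Y` over `F`; `V` is the realisation of `𝒜`. -/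
structure NCData (F : Type) [Field F] (S : Sch F) where
  /-- the linear maps from `V` to the realisation of `perf_dg(Y_k)` -/
  E : Sch F → ModuleCat.{w} ℚ
  /-- the realisations of the morphisms from `U(𝒜)_ℚ` to `U(perf_dg(Y_k))_ℚ` -/
  alg : ∀ Y : Sch F, Submodule ℚ (E Y)
  /-- the linear endomorphisms of `V` -/
  M : ModuleCat.{w} ℚ
  /-- the realisations of the endomorphisms of `U(𝒜)_ℚ` -/
  algM : Submodule ℚ M
  /-- the composition `α ∘ β` -/
  comp : ∀ Y, E Y →ₗ[ℚ] M →ₗ[ℚ] E Y
  /-- the realisation of the inclusion `ι` of `U(𝒜)_ℚ` in `U(perf_dg(S_k))_ℚ` -/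
  incl : E S
  /-- the composition `β ↦ ρ ∘ β` with the projection `ρ` -/
  retr : E S →ₗ[ℚ] M
  /-- the even Künneth projector of `V` -/
  even : M

variable {F : Type} [Field F] {S : Sch F}

/-- Algebraic classes are closed under compositions, `ι` and `ρ` are algebraic, and
`ρ ∘ (ι ∘ π_+) = π_+`. -/
structure IsNC (D : NCData.{w} F S) : Prop where
  incl_mem : D.incl ∈ D.alg S
  comp_mem : ∀ Y, SmoothProj Y → ∀ α ∈ D.alg Y, ∀ β ∈ D.algM, D.comp Y α β ∈ D.alg Y
  retr_mem : ∀ α ∈ D.alg S, D.retr α ∈ D.algM
  retr_comp : D.retr (D.comp S D.incl D.even) = D.even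

/-- The conjecture `C⁺_nc(𝒜)`: some endomorphism of `U(𝒜)_ℚ` realises the even Künneth projector. -/
def CPlusNC (D : NCData.{w} F S) : Prop := D.even ∈ D.algM

/-- `α ∘ π_+` is algebraic for all morphisms `α` from `U(𝒜)` to `U(perf_dg(Y_k))`. -/
def EvenStable (D : NCData.{w} F S) (Y : Sch F) : Prop :=
  ∀ α ∈ D.alg Y, D.comp Y α D.even ∈ D.alg Y

lemma plus_of_stable {D : NCData.{w} F S} (hD : IsNC D) (h : EvenStable D S) : CPlusNC D := by
  have h1 := hD.retr_mem _ (h D.incl hD.incl_mem)
  rwa [hD.retr_comp] at h1

lemma stable_of_plus {D : NCData.{w} F S} (hD : IsNC D) (h : CPlusNC D) (Y : Sch F)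
    (hY : SmoothProj Y) : EvenStable D Y := fun α hα => hD.comp_mem Y hY α hα _ h

/-- **The conjecture `C⁺_nc` for geometric dg categories and smooth moduli spaces of planar
configurations.** See the explanations above. -/
theorem result {F : Type} [Field F] [PerfectField F] (hF : Frac F) :
    (∀ {S : Sch F}, SmoothProj S →
      ∃ L : List Mat, (∀ M ∈ L, SmoothMod F (topologicalKrullDim S.left) M.2) ∧
        ∀ (D : NCData.{w} F S) (C : PairData.{w} F ℤ ℚ) {δ : ℤ ≃ ℤ}, IsNC D → IsCutPair C δ →
          AllGen C → (∀ Y, SmoothProj Y → (BijAll C Y ↔ EvenStable D Y)) →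
          List.TFAE [CPlusNC D,
            ∀ X : Sch F, FT True X → BijAll C X,
            ∀ M ∈ L, BijAll C (modS F M.2)]) ∧
    ∀ (e : ℕ) {I : Type u} (S : I → Sch F), (∀ a, SmoothProj (S a)) → (∀ a, DimAt (S a) e) →
      ∀ (D : ∀ a, NCData.{w} F (S a)) {ι : Type} (C : PairData.{w} F ι ℚ) {δ : ι ≃ ι},
        (∀ a, IsNC (D a)) → IsCutPair C δ → BijDim C →
        (∀ Y, SmoothProj Y → (BijAll C Y ↔ ∀ a, EvenStable (D a) Y)) →
        List.TFAE [∀ a, CPlusNC (D a),
          ∀ X : Sch F, FT True X → DimAt X e → BijAll C X,
          ∀ (m : ℕ) (M : Matroid (Fin 4 ⊕ Fin m)), SmoothMod F e M → BijAll C (modS F M)] := by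
  refine ⟨fun {S} hS => ?_, fun e {I} S hS dS D {ι} C {δ} hD hC gC bij => ?_⟩
  · obtain ⟨L, hL, h⟩ := list_tfae hF S hS
    exact ⟨L, hL, fun D C {δ} hD hC hg bij => h C hC hg (CPlusNC D)
      (fun h => plus_of_stable hD ((bij S hS).mp h))
      fun h Y hY => (bij Y hY).mpr (stable_of_plus hD h Y hY)⟩
  · exact family_tfae hF hC gC e S hS dS (fun a => CPlusNC (D a)) (fun a => EvenStable (D a))
      bij (fun a h => plus_of_stable (hD a) h) fun a h Y hY => stable_of_plus (hD a) h Y hY

end Pool.Agent.Results.MP_8f22fa_ag.PlanarConfigurations
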