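import Pool.Agent.Helper3.GM.App

/-!
# The conjecture `C⁺_nc` for one geometric dg category and finitely many varieties of matrices

Let `F` be a prime field, `k` an algebraic extension of `F` (for instance `ℚ` or `ℚ̄`), `S` a smooth
projective scheme over `F`, and `𝒜` **one** smooth proper dg category over `k` such that `U(𝒜)_ℚ` is a
direct factor of `U(perf_dg(S_k))_ℚ` in `NChow(k)_ℚ`, for instance an admissible subcategory of
`perf_dg(S_k)`: there are morphisms `ι : U(𝒜) → U(perf(S_k))` and `ρ` back with `ρ ∘ ι = 1`. The conjecture
`C⁺_nc(𝒜)` says that the even Künneth projector `π_+` of `V = HP_±(𝒜)`, or of `V = TP_±(𝒜)_{1/p}`, is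
algebraic.

For a smooth projective scheme `Y` over `F` let `A(Y)` be the image of `K_0(𝒜^op ⊗ perf_dg(Y_k))_ℚ` in the
space `Hom(V, V_Y)`, where `V_Y` is the realisation of `perf_dg(Y_k)` (that is, the morphisms from
`U(𝒜)_ℚ` to `U(perf_dg(Y_k))_ℚ`, modulo homological equivalence), and
`B(Y) = A(Y) + A(Y) ∘ π_+`. Both are additive functors of the Chow motive of `Y_k` which do not see Tate
twists, and `A ⊆ B`; they are equal if and only if `α ∘ π_+` is algebraic for all algebraic `α`
(`EvenStable`). For a separated scheme `X` of finite type over `F` let `W(X)` be the weight complex of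
`X_k` (Gillet, Soulé, Bondarko; a complex of Chow motives over `k` with rational coefficients, for the
cohomology with compact supports; `W(X) = h(X_k)` for smooth projective `X`), and put
`A^i(X) = H^i(A(W(X)))`, `B^i(X) = H^i(B(W(X)))`. `BijAll C X` says that the maps `A^i(X) → B^i(X)` are
isomorphisms for all `i`.

For a set `T` of positions in the `n × n` matrices with at most three positions in each row and in each
column (`Sparse`) let `detS` be the determinant of the generic matrix with zeros outside of `T`. (With two
positions instead of three it would be a product of monomials and binomials.)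

**Theorem.** There is a finite list `L` of sets `T` of positions, with at most three positions in each row and
in each column, which depends only on `S` (not on
`k`, on the realisation or on the dg category `𝒜`) such that the following statements are equivalent.

* The conjecture `C⁺_nc(𝒜)` is true.
* The maps are isomorphisms for all separated schemes `X` of finite type over `F`.
* They are isomorphisms for the schemes of the invertible matrices with zeros outside of `T`, `T` in `L`.
* They are isomorphisms for the schemes of the matrices of determinant one with zeros outside of `T`, `T` in `L`.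
* They are isomorphisms for the schemes of the matrices of determinant zero with zeros outside of `T`, `T` in `L`.
* They are isomorphisms for the schemes of the invertible matrices with zeros outside of `T` and invertible entries
  at all positions in `T`, `T` in `L`.

The data are those of the theorem on finitely many cubic hypersurfaces `T(x, y, z) = 1` of the library.
-/

set_option autoImplicit false

open AlgebraicGeometry Pool.Agent.Y116.UV Pool.Agent.Z125.UN Pool.Agent.Q193.LT
  Pool.Agent.Helper3.GU Pool.Agent.Helper3.GM

universe w

namespace Pool.Agent.Results.MP_8f22fa_ag.SparseMatrices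

/-- A smooth proper dg category `𝒜` over `k` whose noncommutative motive is a direct factor of that of
`S_k`, and the schemes `Y_k`, for schemes `Y` over `F`; `V` is the realisation of `𝒜`. -/
structure NCData (F : Type) [Field F] (S : Sch F) where
  /-- the linear maps from `V` to the realisation of `perf_dg(Y_k)` -/
  E : Sch F → ModuleCat.{w} ℚ
  /-- the realisations of the morphisms from `U(𝒜)_ℚ` to `U(perf_dg(Y_k))_ℚ` -/
  alg : ∀ Y : Sch F, Submodule ℚ (E Y)
  /-- the linear endomorphisms of `V` -/
  M : ModuleCat.{w} ℚ
  /-- the realisations of the endomorphisms of `U(𝒜)_ℚ` -/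
  algM : Submodule ℚ M
  /-- the composition `α ∘ β` -/
  comp : ∀ Y, E Y →ₗ[ℚ] M →ₗ[ℚ] E Y
  /-- the realisation of the inclusion `ι` of `U(𝒜)_ℚ` in `U(perf_dg(S_k))_ℚ` -/
  incl : E S
  /-- the composition `β ↦ ρ ∘ β` with the projection `ρ` -/
  retr : E S →ₗ[ℚ] M
  /-- the even Künneth projector of `V` -/
  even : M

variable {F : Type} [Field F] {S : Sch F}

/-- Algebraic classes are closed under compositions, `ι` and `ρ` are algebraic, and
`ρ ∘ (ι ∘ π_+) = π_+`. -/
structure IsNC (D : NCData.{w} F S) : Prop where
  incl_mem : D.incl ∈ D.alg S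
  comp_mem : ∀ Y, SmoothProj Y → ∀ α ∈ D.alg Y, ∀ β ∈ D.algM, D.comp Y α β ∈ D.alg Y
  retr_mem : ∀ α ∈ D.alg S, D.retr α ∈ D.algM
  retr_comp : D.retr (D.comp S D.incl D.even) = D.even

/-- The conjecture `C⁺_nc(𝒜)`: some endomorphism of `U(𝒜)_ℚ` realises the even Künneth projector. -/
def CPlusNC (D : NCData.{w} F S) : Prop := D.even ∈ D.algM

/-- `α ∘ π_+` is algebraic for all morphisms `α` from `U(𝒜)` to `U(perf_dg(Y_k))`. -/
def EvenStable (D : NCData.{w} F S) (Y : Sch F) : Prop :=
  ∀ α ∈ D.alg Y, D.comp Y α D.even ∈ D.alg Y

/-- The standard properties of `A^i`, `B^i` and of the maps between them: long exact sequences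
`⋯ → A^i(U) → A^i(X) → A^i(Z) → A^{i+1}(U) → ⋯`, `A^i(E) = A^i(U)` for affine bundles, and `A^i(X)` is a
direct factor of `A^{i+1}(X × 𝔾_m)`. -/
def IsWeightNC (C : PairData.{w} F ℤ ℚ) : Prop :=
  IsPair C (Equiv.addRight 1) (Equiv.refl ℤ) (Equiv.addRight 1)

/-- **The conjecture `C⁺_nc` for one geometric dg category and finitely many varieties of matrices.** See the
explanations above. -/
theorem result {F : Type} [Field F] [PerfectField F] (hF : Frac F) {S : Sch F} (hS : SmoothProj S) :
    ∃ L : List (Σ n : ℕ, Finset (Fin n × Fin n)), (∀ T ∈ L, Sparse T.2) ∧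
      ∀ (D : NCData.{w} F S) (C : PairData.{w} F ℤ ℚ), IsNC D → IsWeightNC C → WeightGen C →
        BijAll C (aff F F) → (∀ Y, SmoothProj Y → (BijAll C Y ↔ EvenStable D Y)) →
        List.TFAE [CPlusNC D,
          ∀ X : Sch F, FT True X → BijAll C X,
          ∀ T ∈ L, BijAll C (invS F T.2),
          ∀ T ∈ L, BijAll C (oneS F T.2),
          ∀ T ∈ L, BijAll C (zeroS F T.2),
          ∀ T ∈ L, BijAll C (torS F T.2)] := by
  obtain ⟨L, hL, h⟩ := mat_list_pair hF S hS
  refine ⟨L, hL, fun D C hD hC hg h1 bij => h C hg hC h1 (CPlusNC D) (fun h => ?_)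
    fun h Y hY => (bij Y hY).mpr fun α hα => hD.comp_mem Y hY α hα _ h⟩
  have h1 := hD.retr_mem _ ((bij S hS).mp h D.incl hD.incl_mem)
  rwa [hD.retr_comp] at h1

end Pool.Agent.Results.MP_8f22fa_ag.SparseMatrices
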